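import Pool.Agent.H32.GlauC

set_option autoImplicit false

namespace Pool.Agent.Results.MP_a221c1_pr.NotMono

open Finset SimpleGraph Pool.Agent.H32.Glau

noncomputable section

section defs

variable {V : Type} [Fintype V] [DecidableEq V] (G : SimpleGraph V) [DecidableRel G.Adj] (q : ℕ)

/-- Proper `q`-colourings. -/
def Col := {σ : V → Fin q // ∀ u v, G.Adj u v → σ u ≠ σ v}

instance : Fintype (Col G q) := inferInstanceAs (Fintype {_σ : V → Fin q // _})

instance : DecidableEq (Col G q) := inferInstanceAs (DecidableEq {_σ : V → Fin q // _})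

/-- Recolour `v` with `c` if the result is proper, otherwise stay. -/
def step (σ : Col G q) (v : V) (c : Fin q) : Col G q :=
  if h : ∀ a b, G.Adj a b → Function.update σ.1 v c a ≠ Function.update σ.1 v c b then
    ⟨Function.update σ.1 v c, h⟩ else σ

/-- Transition matrix of Glauber dynamics: `v` and `c` are uniform and independent. -/
def P : Matrix (Col G q) (Col G q) ℝ := Matrix.of fun σ τ =>
  ((univ.filter fun x : V × Fin q => step G q σ x.1 x.2 = τ).card : ℝ) / (Fintype.card V * q)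

/-- The mixing time `t_G(q)` (`⊤` if the distance never drops to `1/e`). -/
def tmix : ℕ∞ := sInf {s : ℕ∞ | ∃ t : ℕ, s = t ∧ ∀ σ,
  1 / 2 * ∑ τ, |(P G q ^ t) σ τ - 1 / (Fintype.card (Col G q) : ℝ)| ≤ Real.exp (-1)}

variable {G q}

lemma P_mul (σ : Col G q) (f : Col G q → ℝ) :
    ∑ ρ, P G q σ ρ * f ρ = (∑ v, ∑ c, f (step G q σ v c)) / (Fintype.card V * q) := by
  rw [← Fintype.sum_prod_type' (f := fun v c => f (step G q σ v c)),
    ← sum_fiberwise univ fun x : V × Fin q => step G q σ x.1 x.2, sum_div]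
  refine sum_congr rfl fun ρ _ => ?_
  rw [sum_congr rfl (g := fun _ => f ρ) fun x hx => by rw [(mem_filter.1 hx).2], sum_const,
    nsmul_eq_mul, P, Matrix.of_apply]
  ring

lemma step_back {σ τ : Col G q} {v : V} {c : Fin q} (h : step G q σ v c = τ) (hne : σ ≠ τ) :
    step G q τ v (σ.1 v) = σ ∧ τ.1 v = c := by
  unfold step at h
  split_ifs at h with h1
  · subst h
    have e : Function.update (Function.update σ.1 v c) v (σ.1 v) = σ.1 := by simp
    refine ⟨?_, by simp⟩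
    unfold step
    rw [dif_pos (by rw [e]; exact σ.2)]
    exact Subtype.ext e
  · exact absurd h hne

lemma P_symm : (P G q).transpose = P G q := by
  ext σ τ
  by_cases h : τ = σ
  · rw [h, Matrix.transpose_apply]
  · simp only [Matrix.transpose_apply, P, Matrix.of_apply]
    congr 2
    refine card_bij' (fun x _ => (x.1, τ.1 x.1)) (fun x _ => (x.1, σ.1 x.1)) (fun x hx => ?_)
      (fun x hx => ?_) (fun x hx => ?_) fun x hx => ?_
    · simpa using (step_back (mem_filter.1 hx).2 h).1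
    · simpa using (step_back (mem_filter.1 hx).2 (Ne.symm h)).1
    · exact Prod.ext rfl (step_back (mem_filter.1 hx).2 h).2
    · exact Prod.ext rfl (step_back (mem_filter.1 hx).2 (Ne.symm h)).2

def act (e : Equiv.Perm (Fin q)) : Col G q ≃ Col G q where
  toFun σ := ⟨e ∘ σ.1, fun u v h k => σ.2 u v h (e.injective k)⟩
  invFun σ := ⟨e.symm ∘ σ.1, fun u v h k => σ.2 u v h (e.symm.injective k)⟩
  left_inv σ := Subtype.ext (funext fun _ => by simp)
  right_inv σ := Subtype.ext (funext fun _ => by simp)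

lemma step_act (e : Equiv.Perm (Fin q)) (σ : Col G q) (v : V) (c : Fin q) :
    step G q (act e σ) v (e c) = act e (step G q σ v c) := by
  have h : Function.update (act e σ).1 v (e c) = e ∘ Function.update σ.1 v c :=
    (Function.comp_update e σ.1 v c).symm
  unfold step
  simp only [h, Function.comp_apply, ne_eq, e.apply_eq_iff_eq]
  split_ifs
  · exact Subtype.ext rfl
  · rfl

lemma pow_act (e : Equiv.Perm (Fin q)) (t : ℕ) (σ τ : Col G q) :
    (P G q ^ t) (act e σ) (act e τ) = (P G q ^ t) σ τ := by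
  induction t generalizing σ with
  | zero => simp [Matrix.one_apply]
  | succ t ih =>
    rw [pow_succ', Matrix.mul_apply, Matrix.mul_apply, P_mul, P_mul]
    congr 1
    refine sum_congr rfl fun v _ => (Equiv.sum_comp e _).symm.trans (sum_congr rfl fun c _ => ?_)
    rw [step_act, ih]

lemma row_sum [Nonempty V] (hq : 0 < q) (t : ℕ) (σ : Col G q) : ∑ τ, (P G q ^ t) σ τ = 1 := by
  induction t generalizing σ with
  | zero => simp [Matrix.one_apply]
  | succ t ih =>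
    simp only [pow_succ', Matrix.mul_apply]
    rw [sum_comm]
    simp only [← mul_sum, ih]
    rw [P_mul]
    simp only [sum_const, card_univ, Fintype.card_fin, nsmul_eq_mul, mul_one]
    exact div_self (by positivity)

end defs

instance : DecidableRel (pathGraph 4).Adj := fun _ _ => decidable_of_iff _ pathGraph_adj.symm

lemma proper_iff {q : ℕ} (σ : Fin 4 → Fin q) :
    (∀ u v, (pathGraph 4).Adj u v → σ u ≠ σ v) ↔ σ 0 ≠ σ 1 ∧ σ 1 ≠ σ 2 ∧ σ 2 ≠ σ 3 := by
  refine ⟨fun h => ⟨h 0 1 (by decide), h 1 2 (by decide), h 2 3 (by decide)⟩, fun h u v huv => ?_⟩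
  fin_cases u <;> fin_cases v <;> first
    | exact absurd huv (by decide)
    | tauto

def hh : ℕ → ℕ → ℕ
  | 0, k => if k = 0 then 0 else 1
  | t + 1, k => k * hh t (k - 1) + (4 - k) * hh t k

lemma coupon {q : ℕ} (hq : 0 < q) (σ : Col (pathGraph 4) q) (t : ℕ) :
    ∀ (U : Finset (Fin 4)) (ρ : Col (pathGraph 4) q), (∀ u ∈ U, ρ.1 u = σ.1 u) →
    (hh t U.card : ℝ) / 4 ^ t ≤
      ∑ τ ∈ univ.filter fun τ : Col (pathGraph 4) q => ∃ v, τ.1 v = σ.1 v, (P _ q ^ t) ρ τ := by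
  induction t with
  | zero =>
    intro U ρ h
    simp only [hh, pow_zero, Matrix.one_apply, sum_ite_eq, mem_filter, mem_univ, true_and, div_one]
    split_ifs with h1 h2 h2
    · simp
    · simp
    · simp
    · obtain ⟨u, hu⟩ := card_pos.1 (Nat.pos_of_ne_zero h1)
      exact absurd ⟨u, h u hu⟩ h2
  | succ t ih =>
    intro U ρ h
    simp only [pow_succ' (P _ q), Matrix.mul_apply]
    rw [sum_comm]
    simp only [← mul_sum]
    rw [P_mul, le_div_iff₀ (by positivity)]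
    refine le_trans (le_of_eq ?_) (sum_le_sum fun v _ => sum_le_sum fun c _ =>
      ih (U.erase v) _ fun u hu => ?_)
    · simp only [sum_const, card_univ, Fintype.card_fin, nsmul_eq_mul, ← mul_sum, ← sum_div]
      rw [← sum_add_sum_compl U, sum_congr rfl (g := fun _ => (hh t (U.card - 1) : ℝ))
        fun v hv => by rw [card_erase_of_mem hv], sum_congr (s₁ := Uᶜ) rfl
        (g := fun _ => (hh t U.card : ℝ)) fun v hv => by rw [erase_eq_of_notMem (mem_compl.1 hv)]]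
      simp only [sum_const, card_compl, Fintype.card_fin, nsmul_eq_mul, hh]
      push_cast
      ring
    · unfold step
      split_ifs
      · exact (Function.update_of_ne (mem_erase.1 hu).1 _ _).trans (h u (mem_erase.1 hu).2)
      · exact h u (mem_erase.1 hu).2

lemma low {q : ℕ} (hq : q = 1000) : (8 : ℕ∞) < tmix (pathGraph 4) q := by
  refine lt_of_lt_of_le (b := 9) (by norm_num) (le_sInf ?_)
  rintro _ ⟨t, rfl, h⟩
  obtain ⟨σ⟩ : Nonempty (Col (pathGraph 4) q) :=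
    ⟨⟨![⟨0, by omega⟩, ⟨1, by omega⟩, ⟨0, by omega⟩, ⟨1, by omega⟩], (proper_iff _).2 (by simp)⟩⟩
  set A := univ.filter fun τ : Col (pathGraph 4) q => ∃ v, τ.1 v = σ.1 v with hA
  set N : ℝ := ((Fintype.card (Col (pathGraph 4) q) : ℕ) : ℝ) with hN
  have h1 : (997 : ℝ) ^ 4 ≤ N := by
    have := Fintype.card_le_of_injective (β := Col (pathGraph 4) q) (fun f : Fin 4 ↪ Fin q =>
      (⟨f, fun u v h k => h.ne (f.injective k)⟩ : Col (pathGraph 4) q))
      fun f g e => DFunLike.coe_injective (congrArg Subtype.val e)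
    rw [Fintype.card_embedding_eq, Fintype.card_fin, Fintype.card_fin] at this
    have h2 : 997 ^ 4 ≤ Nat.descFactorial q 4 := by
      rw [hq]
      decide +kernel
    rw [hN]
    exact_mod_cast h2.trans this
  have h2 : (A.card : ℝ) ≤ 4 * 1000 ^ 3 := by
    have h3 : A.card ≤ (univ.biUnion fun v : Fin 4 =>
        univ.filter fun f : Fin 4 → Fin q => f v = σ.1 v).card :=
      card_le_card_of_injOn Subtype.val (fun τ hτ => by simpa [hA] using hτ)
        Subtype.val_injective.injOn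
    have h4 := h3.trans (card_biUnion_le_card_mul _ _ (q ^ 3) fun v _ => by
      simpa using (Fintype.card_filter_piFinset_const_eq_of_mem univ v (mem_univ (σ.1 v))).le)
    rw [card_univ, Fintype.card_fin] at h4
    have h5 : A.card ≤ 4 * 1000 ^ 3 := h4.trans (by rw [hq])
    exact_mod_cast h5
  have h3 := coupon (by omega) σ t univ σ fun _ _ => rfl
  have h4 : ∑ τ ∈ A, ((P _ q ^ t) σ τ - 1 / N) + ∑ τ ∈ Aᶜ, ((P _ q ^ t) σ τ - 1 / N) = 0 := by
    rw [sum_add_sum_compl, sum_sub_distrib, row_sum (by omega), sum_const, card_univ,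
      nsmul_eq_mul, ← hN, mul_one_div_cancel (by linarith [show (0 : ℝ) < 997 ^ 4 by norm_num])]
    simp
  have h5 : ∑ τ ∈ A, ((P _ q ^ t) σ τ - 1 / N) ≤ ∑ τ ∈ A, |(P _ q ^ t) σ τ - 1 / N| :=
    sum_le_sum fun y _ => le_abs_self _
  have h6 : -∑ τ ∈ Aᶜ, ((P _ q ^ t) σ τ - 1 / N) ≤ ∑ τ ∈ Aᶜ, |(P _ q ^ t) σ τ - 1 / N| := by
    rw [← sum_neg_distrib]
    exact sum_le_sum fun y _ => neg_le_abs _
  have h7 := sum_add_sum_compl A fun τ => |(P _ q ^ t) σ τ - 1 / N|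
  have h8 : ∑ τ ∈ A, 1 / N ≤ 4 * 1000 ^ 3 / 997 ^ 4 := by
    rw [sum_const, nsmul_eq_mul, mul_one_div]
    exact div_le_div₀ (by norm_num) h2 (by norm_num) h1
  rw [sum_sub_distrib] at h4 h5
  have h9 := h σ
  have h10 := Real.exp_neg_one_lt_d9
  rw [← hA, card_univ, Fintype.card_fin] at h3
  by_contra hc
  have ht : t < 9 := by exact_mod_cast not_le.1 hc
  have h11 : (377 : ℝ) / 1000 ≤ (hh t 4 : ℝ) / 4 ^ t := by
    interval_cases t <;> norm_num [hh]
  have h12 : (4 : ℝ) * 1000 ^ 3 / 997 ^ 4 ≤ 5 / 1000 := by norm_num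
  norm_num at h10
  linarith

lemma sel_eq (s T a : ℕ) : sel s T a = T / 2 ^ (s * a) % 2 ^ s := by
  rw [sel, Nat.shiftRight_eq_div_pow, ← Nat.and_two_pow_sub_one_eq_mod]

lemma hstep {s x y k : ℕ} (hx : x < 2 ^ s) (hy : y < 2 ^ (s * k)) :
    x + y <<< s < 2 ^ (s * (k + 1)) ∧ sel s (x + y <<< s) 0 = x ∧
      ∀ a, sel s (x + y <<< s) (a + 1) = sel s y a := by
  rw [Nat.shiftLeft_eq]
  refine ⟨?_, ?_, fun a => ?_⟩
  · rw [mul_add, mul_one, pow_add]
    nlinarith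
  · simp [sel_eq, Nat.mod_eq_of_lt hx]
  · rw [sel_eq, sel_eq, mul_add, mul_one, pow_add, mul_comm (2 ^ (s * a)), ← Nat.div_div_eq_div_mul,
      Nat.add_mul_div_right _ _ (by positivity), Nat.div_eq_of_lt hx, zero_add]

lemma e7_spec {s : ℕ} {g : ℕ → ℕ} (h : ∀ a < 7, g a < 2 ^ s) :
    e7 s g < 2 ^ (s * 7) ∧ ∀ a < 7, sel s (e7 s g) a = g a := by
  have h6 : g 6 < 2 ^ (s * 1) := by simpa using h 6 (by norm_num)
  obtain ⟨a5, b5, c5⟩ := hstep (h 5 (by norm_num)) h6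
  obtain ⟨a4, b4, c4⟩ := hstep (h 4 (by norm_num)) a5
  obtain ⟨a3, b3, c3⟩ := hstep (h 3 (by norm_num)) a4
  obtain ⟨a2, b2, c2⟩ := hstep (h 2 (by norm_num)) a3
  obtain ⟨a1, b1, c1⟩ := hstep (h 1 (by norm_num)) a2
  obtain ⟨a0, b0, c0⟩ := hstep (h 0 (by norm_num)) a1
  refine ⟨a0, fun a ha => ?_⟩
  unfold e7
  interval_cases a
  · exact b0
  · rw [c0 0, b1]
  · rw [c0 1, c1 0, b2]
  · rw [c0 2, c1 1, c2 0, b3]
  · rw [c0 3, c1 2, c2 1, c3 0, b4]
  · rw [c0 4, c1 3, c2 2, c3 1, c4 0, b5]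
  · rw [c0 5, c1 4, c2 3, c3 2, c4 1, c5 0, sel_eq]
    simp [Nat.mod_eq_of_lt (h 6 (by norm_num))]

lemma get_enc {F : ℕ → ℕ → ℕ → ℕ → ℕ}
    (hF : ∀ a < 7, ∀ b < 7, ∀ c < 7, ∀ d < 7, F a b c d < 2 ^ 40) {a b c d : ℕ} (ha : a < 7)
    (hb : b < 7) (hc : c < 7) (hd : d < 7) : get (enc F) a b c d = F a b c d := by
  have h1 := fun b hb c hc d hd => e7_spec (s := 40) (g := fun a => F a b c d)
    fun a ha => hF a ha b hb c hc d hd
  have h2 := fun c hc d hd => e7_spec (s := 280) (g := fun b => e7 40 fun a => F a b c d)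
    fun b hb => (h1 b hb c hc d hd).1
  have h3 := fun d hd => e7_spec (s := 1960) (g := fun c => e7 280 fun b => e7 40 fun a => F a b c d)
    fun c hc => (h2 c hc d hd).1
  have h4 := e7_spec (s := 13720)
    (g := fun d => e7 1960 fun c => e7 280 fun b => e7 40 fun a => F a b c d)
    fun d hd => (h3 d hd).1
  rw [H32.Glau.get, enc, h4.2 d hd, (h3 d hd).2 c hc, (h2 c hc d hd).2 b hb,
    (h1 b hb c hc d hd).2 a ha]

lemma s7_eq (g : ℕ → ℕ) : s7 g = ∑ x : Fin 7, g x := by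
  rw [Fin.sum_univ_seven]
  rfl

lemma ok_iff (τ : Fin 4 → Fin 7) :
    ok (τ 0) (τ 1) (τ 2) (τ 3) = true ↔ ∀ u v, (pathGraph 4).Adj u v → τ u ≠ τ v := by
  rw [proper_iff]
  simp [ok, Fin.ext_iff, and_assoc, ← Bool.not_eq_true, Nat.beq_eq]

def gt (T : ℕ) (f : Fin 4 → Fin 7) : ℕ := get T (f 0) (f 1) (f 2) (f 3)

lemma sum_col (F : ℕ → ℕ → ℕ → ℕ → ℕ) (hF : ∀ a b c d, ok a b c d = false → F a b c d = 0) :
    ∑ τ : Col (pathGraph 4) 7, F (τ.1 0) (τ.1 1) (τ.1 2) (τ.1 3) = ssum F := by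
  have h1 : ∑ τ : Col (pathGraph 4) 7, F (τ.1 0) (τ.1 1) (τ.1 2) (τ.1 3) =
      ∑ f : Fin 4 → Fin 7, F (f 0) (f 1) (f 2) (f 3) := by
    refine sum_of_injOn Subtype.val Subtype.val_injective.injOn (fun _ _ => mem_univ _)
      (fun f _ hf => hF _ _ _ _ ?_) fun _ _ => rfl
    exact Bool.eq_false_iff.2 fun k => hf ⟨⟨f, (ok_iff f).1 k⟩, mem_coe.2 (mem_univ _), rfl⟩
  rw [h1]
  simp only [ssum, s7_eq, ← Fintype.sum_prod_type']
  exact Fintype.sum_equiv ⟨fun f => (f 0, f 1, f 2, f 3), fun x => ![x.1, x.2.1, x.2.2.1, x.2.2.2],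
    fun f => funext fun i => by fin_cases i <;> rfl, fun _ => rfl⟩ _ _ fun _ => rfl

lemma gt_step {T : ℕ} (hT : ∀ f : Fin 4 → Fin 7, ok (f 0) (f 1) (f 2) (f 3) = false → gt T f = 0)
    (τ : Col (pathGraph 4) 7) (v : Fin 4) (c : Fin 7) :
    gt T (step _ 7 τ v c).1 = gt T (Function.update τ.1 v c) + no (Function.update τ.1 v c 0)
      (Function.update τ.1 v c 1) (Function.update τ.1 v c 2) (Function.update τ.1 v c 3) *
        gt T τ.1 := by
  unfold step no
  split_ifs with h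
  · rw [(ok_iff _).2 h]
    simp
  · have := Bool.eq_false_iff.2 fun k => h ((ok_iff _).1 k)
    rw [hT _ this, this]
    simp

lemma nxt_eq {T : ℕ} (hT : ∀ f : Fin 4 → Fin 7, ok (f 0) (f 1) (f 2) (f 3) = false → gt T f = 0)
    (τ : Col (pathGraph 4) 7) :
    nxt T (τ.1 0) (τ.1 1) (τ.1 2) (τ.1 3) = ∑ v, ∑ c, gt T (step _ 7 τ v c).1 := by
  simp only [gt_step hT, sum_add_distrib, ← sum_mul]
  rw [nxt, (ok_iff _).2 τ.2, cond_true]
  simp only [Fin.sum_univ_four, r0, r1, r2, r3, bad, s7_eq]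
  rfl

lemma tab_eq (σ : Col (pathGraph 4) 7) (t : ℕ) (ht : t ≤ 8) :
    (∀ f : Fin 4 → Fin 7, ok (f 0) (f 1) (f 2) (f 3) = false →
      gt (tab (σ.1 0) (σ.1 1) (σ.1 2) (σ.1 3) t) f = 0) ∧ ∀ τ : Col (pathGraph 4) 7,
    gt (tab (σ.1 0) (σ.1 1) (σ.1 2) (σ.1 3) t) τ.1 ≤ 28 ^ t ∧
      (gt (tab (σ.1 0) (σ.1 1) (σ.1 2) (σ.1 3) t) τ.1 : ℝ) = 28 ^ t * (P _ 7 ^ t) τ σ := by
  induction t with
  | zero =>
    have h0 : ∀ f : Fin 4 → Fin 7, gt (tab (σ.1 0) (σ.1 1) (σ.1 2) (σ.1 3) 0) f =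
        if f = σ.1 then 1 else 0 := fun f => by
      rw [tab, gt, get_enc (fun a _ b _ c _ d _ => by cases (_ && _ && _ && _ : Bool) <;> simp)
        (f 0).2 (f 1).2 (f 2).2 (f 3).2]
      split_ifs with h
      · simp [h]
      · cases k : (Nat.beq (f 0) (σ.1 0) && Nat.beq (f 1) (σ.1 1) && Nat.beq (f 2) (σ.1 2) &&
          Nat.beq (f 3) (σ.1 3))
        · rfl
        refine absurd (funext fun i => Fin.ext ?_) h
        simp only [Bool.and_eq_true, Nat.beq_eq] at k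
        fin_cases i
        exacts [k.1.1.1, k.1.1.2, k.1.2, k.2]
    refine ⟨fun f hf => ?_, fun τ => ?_⟩
    · rw [h0, if_neg]
      rintro rfl
      rw [(ok_iff _).2 σ.2] at hf
      exact absurd hf (by simp)
    · rw [h0]
      by_cases h : τ = σ
      · simp [h]
      · rw [if_neg fun k => h (Subtype.ext k)]
        simp [h]
  | succ t ih =>
    obtain ⟨i1, i2⟩ := ih (by omega)
    have h1 : ∀ τ : Col (pathGraph 4) 7, nxt (tab (σ.1 0) (σ.1 1) (σ.1 2) (σ.1 3) t)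
        (τ.1 0) (τ.1 1) (τ.1 2) (τ.1 3) ≤ 28 ^ (t + 1) := fun τ => by
      rw [nxt_eq i1]
      refine (sum_le_sum fun v _ => sum_le_sum fun c _ => (i2 _).1).trans (le_of_eq ?_)
      simp only [sum_const, card_univ, Fintype.card_fin, smul_eq_mul]
      ring
    have h2 : ∀ f : Fin 4 → Fin 7, gt (tab (σ.1 0) (σ.1 1) (σ.1 2) (σ.1 3) (t + 1)) f =
        nxt (tab (σ.1 0) (σ.1 1) (σ.1 2) (σ.1 3) t) (f 0) (f 1) (f 2) (f 3) := fun f => by
      rw [tab, gt, get_enc (fun a ha b hb c hc d hd => ?_) (f 0).2 (f 1).2 (f 2).2 (f 3).2]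
      cases h : ok a b c d
      · simp [nxt, h]
      · exact (h1 ⟨![⟨a, ha⟩, ⟨b, hb⟩, ⟨c, hc⟩, ⟨d, hd⟩], (ok_iff _).1 h⟩).trans_lt
          ((Nat.pow_le_pow_right (by norm_num) ht).trans_lt (by norm_num))
    refine ⟨fun f hf => by rw [h2, nxt, hf, cond_false], fun τ => ⟨h2 _ ▸ h1 τ, ?_⟩⟩
    rw [h2, nxt_eq i1, pow_succ' (P _ 7), Matrix.mul_apply, P_mul]
    push_cast
    simp only [(i2 _).2, ← mul_sum, Fintype.card_fin]
    push_cast
    ring

lemma card7 : Fintype.card (Col (pathGraph 4) 7) = 1512 := by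
  rw [← c0, ← sum_col _ fun a b c d h => by rw [h, cond_false], ← card_univ, card_eq_sum_ones]
  exact sum_congr rfl fun τ _ => by rw [(ok_iff _).2 τ.2, cond_true]

lemma of_chk (σ : Col (pathGraph 4) 7) (h : chk (σ.1 0) (σ.1 1) (σ.1 2) (σ.1 3) = true) :
    1 / 2 * ∑ τ, |(P _ 7 ^ 8) σ τ - 1 / (Fintype.card (Col (pathGraph 4) 7) : ℝ)| ≤ Real.exp (-1) := by
  rw [chk, Nat.ble_eq, ← sum_col _ fun a b c d h => by rw [dev, h, cond_false]] at h
  have e2 := (tab_eq σ 8 le_rfl).2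
  generalize tab (σ.1 0) (σ.1 1) (σ.1 2) (σ.1 3) 8 = T at h e2
  have h2 : ∀ τ : Col (pathGraph 4) 7, |(P _ 7 ^ 8) σ τ - 1 / ((1512 : ℕ) : ℝ)| =
      (dev T (τ.1 0) (τ.1 1) (τ.1 2) (τ.1 3) : ℝ) / (1512 * 28 ^ 8) := by
    intro τ
    have e1 : (P _ 7 ^ 8) σ τ = (P (pathGraph 4) 7 ^ 8) τ σ := by
      rw [← Matrix.transpose_apply (P _ 7 ^ 8), Matrix.transpose_pow, P_symm]
    have e3 : (P _ 7 ^ 8) σ τ - 1 / ((1512 : ℕ) : ℝ) =
        (((1512 * gt T τ.1 : ℕ) : ℝ) - ((28 ^ 8 : ℕ) : ℝ)) / (1512 * 28 ^ 8) := by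
      push_cast
      rw [(e2 τ).2, e1]
      ring
    rw [e3, abs_div, abs_of_pos (show (0 : ℝ) < 1512 * 28 ^ 8 by norm_num), dev, (ok_iff _).2 τ.2,
      cond_true, gt]
    congr 1
    generalize 1512 * get T (τ.1 0) (τ.1 1) (τ.1 2) (τ.1 3) = x
    generalize 28 ^ 8 = y
    rcases le_total x y with h | h
    · rw [abs_sub_comm, ← Nat.cast_sub h, Nat.abs_cast, Nat.sub_eq_zero_of_le h, zero_add]
    · rw [← Nat.cast_sub h, Nat.abs_cast, Nat.sub_eq_zero_of_le h, add_zero]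
  have h3 := (Nat.cast_le (α := ℝ)).2 h
  rw [Nat.cast_mul, Nat.cast_sum] at h3
  have h4 := Real.exp_neg_one_gt_d9
  simp only [card7, h2, ← sum_div]
  norm_num at h3 h4 ⊢
  linarith

lemma same_ker (σ τ : Fin 4 → Fin 7) (h : ∀ i j, σ i = σ j ↔ τ i = τ j) :
    ∃ e : Equiv.Perm (Fin 7), τ = e ∘ σ := by
  obtain ⟨e, he⟩ := Equiv.Perm.exists_extending_pair (f := fun x : Set.range σ => x.1)
    (g := fun x => τ x.2.choose) Subtype.val_injective fun x y k =>
      Subtype.ext (x.2.choose_spec.symm.trans (((h _ _).2 k).trans y.2.choose_spec))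
  exact ⟨e, funext fun i => ((he ⟨σ i, i, rfl⟩).trans ((h _ _).1
    (Exists.choose_spec (⟨i, rfl⟩ : σ i ∈ Set.range σ)))).symm⟩

lemma up : tmix (pathGraph 4) 7 ≤ 8 := by
  refine sInf_le ⟨8, rfl, fun τ => ?_⟩
  have key : ∀ σ : Col (pathGraph 4) 7, chk (σ.1 0) (σ.1 1) (σ.1 2) (σ.1 3) = true →
      (∀ i j, σ.1 i = σ.1 j ↔ τ.1 i = τ.1 j) →
      1 / 2 * ∑ ρ, |(P _ 7 ^ 8) τ ρ - 1 / (Fintype.card (Col (pathGraph 4) 7) : ℝ)| ≤
        Real.exp (-1) := by
    intro σ h1 h2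
    obtain ⟨e, he⟩ := same_ker σ.1 τ.1 h2
    obtain rfl : τ = act e σ := Subtype.ext he
    rw [← Equiv.sum_comp (act e)]
    simp only [pow_act]
    exact of_chk σ h1
  obtain ⟨h1, h2, h3⟩ := (proper_iff _).1 τ.2
  have h1' := h1.symm
  have h2' := h2.symm
  have h3' := h3.symm
  by_cases a : τ.1 0 = τ.1 2 <;> by_cases b : τ.1 1 = τ.1 3
  · refine key ⟨![0, 1, 0, 1], (proper_iff _).2 (by decide)⟩ c1 fun i j => ?_
    fin_cases i <;> fin_cases j <;> simp_all
  · refine key ⟨![0, 1, 0, 2], (proper_iff _).2 (by decide)⟩ c2 fun i j => ?_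
    have b' := Ne.symm b
    fin_cases i <;> fin_cases j <;> simp_all
  · refine key ⟨![0, 1, 2, 1], (proper_iff _).2 (by decide)⟩ c4 fun i j => ?_
    have a' := Ne.symm a
    fin_cases i <;> fin_cases j <;> simp_all
  · have a' := Ne.symm a
    have b' := Ne.symm b
    by_cases c : τ.1 0 = τ.1 3
    · refine key ⟨![0, 1, 2, 0], (proper_iff _).2 (by decide)⟩ c3 fun i j => ?_
      fin_cases i <;> fin_cases j <;> simp_all
    · refine key ⟨![0, 1, 2, 3], (proper_iff _).2 (by decide)⟩ c5 fun i j => ?_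
      have c' := Ne.symm c
      fin_cases i <;> fin_cases j <;> simp_all

theorem result : ∃ (V : Type) (_ : Fintype V) (_ : DecidableEq V) (G : SimpleGraph V)
    (_ : DecidableRel G.Adj) (q : ℕ),
    G.Connected ∧ G.maxDegree + 2 ≤ q ∧ tmix G q < tmix G (q + 1) := by
  have hd : (pathGraph 4).maxDegree ≤ 3 := maxDegree_le_of_forall_degree_le _ _ fun v =>
    Nat.le_of_lt_succ ((degree_lt_card_verts v).trans_eq (Fintype.card_fin 4))
  by_contra h
  simp only [not_exists, not_and, not_lt] at h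
  have h1 : ∀ k, tmix (pathGraph 4) (7 + k) ≤ 8 := by
    intro k
    induction k with
    | zero => exact up
    | succ k ih => exact (h _ _ _ (pathGraph 4) _ (7 + k) (pathGraph_connected 3) (by omega)).trans ih
  exact absurd (h1 993) (not_le.2 (low rfl))

end

end Pool.Agent.Results.MP_a221c1_pr.NotMono
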